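import Pool.Agent.Helper881.CenMain
import Pool.Agent.Helper881.GpDefs

set_option autoImplicit false

open Pool.Agent.Helper881.Gp

namespace Pool.Agent.Results.MP_46dca5_an.FiniteGroups

/-- The finite groups `G_P`. A finite group `G` is isomorphic to `G_P = C(P)/∼_P` for some
non-special rational function `P` of degree at least two if and only if `G` has a normal subgroup
`K` such that `G / K` is cyclic and `K` embeds in `PGL₂(ℂ)`. -/
theorem result (G : Type) [Group G] [Finite G] :
    (∃ P : RatFunc ℂ, 2 ≤ deg P ∧ ¬ IsSpecial P ∧ IsGP P G) ↔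
      ∃ (K : Subgroup G) (_ : K.Normal), IsCyclic (G ⧸ K) ∧
        ∃ f : K →* Matrix.ProjGenLinGroup (Fin 2) ℂ, Function.Injective f :=
  Pool.Agent.Helper881.Cen.Main.classification G

end Pool.Agent.Results.MP_46dca5_an.FiniteGroups
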